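import Pool.Agent.Helper667_BS.Cnt

/-!
# MP_491344_nt: bounded representation functions and the number of full scales

`rep A n` is the number of ordered pairs `(a, b) ∈ A × A` with `a + b = n`, and `count A N` is
`|A ∩ [1, N]|`. Call the scale `k` *full* if `A + A` contains the dyadic interval
`[2 ^ k, 2 ^ (k + 1))` and `|A ∩ [1, N]| ≥ √N / 2` for `N = 2 ^ (k + 1)`; `full A K` is the number of
the full scales below `K`.

There is an absolute constant `C` such that for all `D ≥ 1` and `0 < ε ≤ 1` some set `A` satisfies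

1. `r_A(n) ≤ C ^ D + C / ε` for all `n`;
2. for all large `K` there is `k` in `[K, (1 + ε) K]` such that `A + A ⊇ [2 ^ k, 2 ^ (k + 1))`;
3. `|A ∩ [1, N]| ≥ N ^ (1 / 2 - ε)` for all large `N`;
4. at least `c (log K) ^ D` of the scales below `K` are full, for all large `K` (`c = c(D, ε) > 0`).

By the method of Erdős, for a Sidon set (and for all sets with `r_A ≤ 3`) the numbers
`t_k = |A ∩ [1, 2 ^ k]| / 2 ^ (k / 2)` satisfy `∑_{K ≤ k < 2 K} t_k ^ 2 = O(1)`, so that only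
`O(log K)` of the scales below `K` are full. By 4 nothing of this kind is true for bounded
representation functions: if `r_A ≤ R` then `(log K) ^ (c log R)` of the scales below `K` can be full,
and `∑_{k < K} t_k ^ 2` can be larger than every power of `log K`.

Construction. A *wide block* is a set `S + m B`, where `S` is a random block of
`Pool.Agent.H125R2.ET` of the size of `m = p ^ 8` (a set of about `p ^ 4` numbers with bounded `r_S`
and `S + S ⊇ [11 m, 12 m)`) and `B` is the part below `m ^ δ` of a set already constructed for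
`D - 1`. The set `A` is the union of wide blocks with `log m` in geometric progression, separated by
gaps of the size `m ^ δ`; because of the gaps there are only `O(1 / δ)` hits between the blocks for
every `n`.
-/

set_option autoImplicit false

open Filter Topology

namespace Pool.Agent.Results.MP_491344_nt.ManyFullScales

/-- `rep A n`: the number of ordered pairs `(a, b)` of elements of `A` with `a + b = n` -/
noncomputable def rep (A : Set ℕ) (n : ℕ) : ℕ :=
  {x : ℕ × ℕ | x.1 ∈ A ∧ x.2 ∈ A ∧ x.1 + x.2 = n}.ncard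

/-- `count A N = |A ∩ {1, ..., N}|` -/
noncomputable def count (A : Set ℕ) (N : ℕ) : ℕ := {a : ℕ | a ∈ A ∧ 1 ≤ a ∧ a ≤ N}.ncard

/-- every number of `[2 ^ k, 2 ^ (k + 1))` is a sum of two elements of `A` -/
def Covers (A : Set ℕ) (k : ℕ) : Prop :=
  ∀ n, 2 ^ k ≤ n → n < 2 ^ (k + 1) → ∃ a ∈ A, ∃ b ∈ A, a + b = n

/-- the number of the full scales below `K` -/
noncomputable def full (A : Set ℕ) (K : ℕ) : ℕ :=
  {k : ℕ | k < K ∧ Covers A k ∧ Real.sqrt (2 ^ (k + 1)) ≤ 2 * count A (2 ^ (k + 1))}.ncard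

theorem covers_iff {A : Set ℕ} {k : ℕ} : Covers A k ↔ ¬ Pool.Agent.Helper667_AS.Bad A k := by
  unfold Covers Pool.Agent.Helper667_AS.Bad
  push Not
  rfl

theorem count_mono (A : Set ℕ) {M N : ℕ} (h : M ≤ N) : count A M ≤ count A N := by
  unfold count
  refine Set.ncard_le_ncard ?_ ((Set.finite_Iic N).subset (fun a ha => ha.2.2))
  rintro a ⟨h1, h2, h3⟩
  exact ⟨h1, h2, h3.trans h⟩

theorem count_of_covers {A : Set ℕ} {k : ℕ} (h : Covers A k) :
    2 ^ k ≤ (count A (2 ^ (k + 1)) + 1) ^ 2 := by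
  classical
  have hfin : ({a : ℕ | a ∈ A ∧ 1 ≤ a ∧ a ≤ 2 ^ (k + 1)}).Finite :=
    (Set.finite_Iic (2 ^ (k + 1))).subset (fun a ha => ha.2.2)
  obtain ⟨F, hF⟩ : ∃ F : Finset ℕ, F = insert 0 hfin.toFinset := ⟨_, rfl⟩
  have hFc : F.card ≤ count A (2 ^ (k + 1)) + 1 := by
    rw [hF]
    refine (Finset.card_insert_le _ _).trans ?_
    unfold count
    rw [Set.ncard_eq_toFinset_card _ hfin]
  have hsub : Finset.Ico (2 ^ k) (2 ^ (k + 1)) ⊆ (F ×ˢ F).image (fun x => x.1 + x.2) := by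
    intro n hn
    rw [Finset.mem_Ico] at hn
    obtain ⟨a, ha, b, hb, hab⟩ := h n hn.1 hn.2
    have key : ∀ a ∈ A, a ≤ 2 ^ (k + 1) → a ∈ F := by
      intro a ha hle
      rw [hF, Finset.mem_insert, Set.Finite.mem_toFinset]
      rcases Nat.eq_zero_or_pos a with h0 | h0
      · exact Or.inl h0
      · exact Or.inr ⟨ha, h0, hle⟩
    rw [Finset.mem_image]
    exact ⟨(a, b), Finset.mem_product.2 ⟨key a ha (by omega), key b hb (by omega)⟩, hab⟩
  have h1 := Finset.card_le_card hsub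
  rw [Nat.card_Ico] at h1
  have h2 : 2 ^ (k + 1) - 2 ^ k = 2 ^ k := by rw [pow_succ, Nat.mul_two, Nat.add_sub_cancel]
  rw [h2] at h1
  calc 2 ^ k ≤ (F ×ˢ F).card := h1.trans Finset.card_image_le
    _ = F.card ^ 2 := by rw [Finset.card_product, sq]
    _ ≤ (count A (2 ^ (k + 1)) + 1) ^ 2 := Nat.pow_le_pow_left hFc 2

theorem sqrt_of_covers {A : Set ℕ} {k : ℕ} (h4 : 4 ≤ k) (h : Covers A k) :
    Real.sqrt (2 ^ (k + 1)) ≤ 2 * count A (2 ^ (k + 1)) := by
  have h1 := count_of_covers h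
  obtain ⟨x, hx⟩ : ∃ x, x = count A (2 ^ (k + 1)) := ⟨_, rfl⟩
  rw [← hx] at h1 ⊢
  rw [Real.sqrt_le_left (by positivity)]
  have h2 : ((2 : ℝ)) ^ k ≤ ((x : ℝ) + 1) ^ 2 := by exact_mod_cast h1
  have h3 : (16 : ℝ) ≤ 2 ^ k := by
    calc (16 : ℝ) = 2 ^ 4 := by norm_num
      _ ≤ 2 ^ k := pow_le_pow_right₀ (by norm_num) h4
  have h5 : (3 : ℝ) ≤ x := by
    have : 3 ≤ x := by
      by_contra hc
      push Not at hc
      have h6 : (x + 1) ^ 2 ≤ 3 ^ 2 := Nat.pow_le_pow_left (by omega) 2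
      have h7 : 2 ^ 4 ≤ 2 ^ k := Nat.pow_le_pow_right (by norm_num) h4
      omega
    exact_mod_cast this
  rw [pow_succ]
  nlinarith

theorem result : ∃ C : ℝ, 0 < C ∧ ∀ (D : ℕ) (ε : ℝ), 1 ≤ D → 0 < ε → ε ≤ 1 → ∃ A : Set ℕ,
    (∀ n : ℕ, (rep A n : ℝ) ≤ C ^ D + C / ε) ∧
    (∀ᶠ K : ℕ in atTop, ∃ k : ℕ, (K : ℝ) ≤ k ∧ (k : ℝ) ≤ (1 + ε) * K ∧ Covers A k) ∧
    (∀ᶠ N : ℕ in atTop, (N : ℝ) ^ (1 / 2 - ε) ≤ count A N) ∧
    (∃ c : ℝ, 0 < c ∧ ∀ᶠ K : ℕ in atTop, c * Real.log K ^ D ≤ full A K) := by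
  classical
  obtain ⟨C0, hC0⟩ := Pool.Agent.Helper667_BS.main
  refine ⟨65 * C0 + 1, by positivity, ?_⟩
  intro D ε hD hε hε1
  obtain ⟨d, rfl⟩ := Nat.exists_eq_add_of_le' hD
  obtain ⟨E, hE⟩ : ∃ E, E = ⌈64 / ε⌉₊ := ⟨_, rfl⟩
  have hE1 : 64 / ε ≤ E := by rw [hE]; exact Nat.le_ceil _
  have hE2 : (E : ℝ) ≤ 65 / ε := by
    have h1 : (E : ℝ) < 64 / ε + 1 := by rw [hE]; exact Nat.ceil_lt_add_one (by positivity)
    have h2 : 1 ≤ 1 / ε := by rw [le_div_iff₀ hε]; linarith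
    have h3 : 65 / ε = 64 / ε + 1 / ε := by ring
    linarith
  have hE3 : 64 ≤ E := by
    have h1 : (64 : ℝ) ≤ 64 / ε := by rw [le_div_iff₀ hε]; linarith
    exact_mod_cast h1.trans hE1
  have hE0 : (0 : ℝ) < E := by exact_mod_cast (by omega : 0 < E)
  have hEε : 64 ≤ ε * E := by
    rw [div_le_iff₀ hε] at hE1
    linarith
  obtain ⟨A, hA1, ⟨K1, hA2⟩, c, K2, hA3⟩ := hC0 d E hE3
  have hC0' : (0 : ℝ) ≤ C0 := Nat.cast_nonneg _
  refine ⟨A, ?_, ?_, ?_, ?_⟩
  · intro n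
    have h1 : (rep A n : ℝ) ≤ C0 ^ (d + 1) + C0 * E := by exact_mod_cast hA1 n
    have h2 : (C0 : ℝ) ^ (d + 1) ≤ (65 * C0 + 1) ^ (d + 1) :=
      pow_le_pow_left₀ hC0' (by linarith) _
    have h3 : (C0 : ℝ) * E ≤ (65 * C0 + 1) / ε := by
      calc (C0 : ℝ) * E ≤ C0 * (65 / ε) := mul_le_mul_of_nonneg_left hE2 hC0'
        _ = 65 * C0 / ε := by ring
        _ ≤ (65 * C0 + 1) / ε := by
            apply div_le_div_of_nonneg_right _ hε.le
            linarith
    linarith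
  · filter_upwards [eventually_ge_atTop K1] with K hK
    obtain ⟨k, hk1, hk2, hk3⟩ := hA2 K hK
    refine ⟨k, by exact_mod_cast hk1, ?_, covers_iff.2 hk3⟩
    have h1 : (E : ℝ) * k ≤ (E + 2) * K := by exact_mod_cast hk2
    have h2 : (0 : ℝ) ≤ K := Nat.cast_nonneg _
    have h3 : (E : ℝ) * k ≤ E * ((1 + ε) * K) := by nlinarith
    exact le_of_mul_le_mul_left h3 hE0
  · have hlog : ∀ᶠ N : ℕ in atTop, (E + 2) * (K1 + 1) + ⌈8 / ε⌉₊ + 1 ≤ Nat.log 2 N := by
      filter_upwards [eventually_ge_atTop (2 ^ ((E + 2) * (K1 + 1) + ⌈8 / ε⌉₊ + 1))] with N hN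
      have hN0 : N ≠ 0 := by
        have : 0 < 2 ^ ((E + 2) * (K1 + 1) + ⌈8 / ε⌉₊ + 1) := by positivity
        omega
      exact (Nat.le_log_iff_pow_le (by norm_num) hN0).2 hN
    filter_upwards [hlog, eventually_ge_atTop 1] with N hN hN1
    obtain ⟨L, hL⟩ : ∃ L, L = Nat.log 2 N := ⟨_, rfl⟩
    rw [← hL] at hN
    have hLN : 2 ^ L ≤ N := by rw [hL]; exact Nat.pow_log_le_self 2 (by omega)
    have hNL : N < 2 ^ (L + 1) := by rw [hL]; exact Nat.lt_pow_succ_log_self (by norm_num) N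
    obtain ⟨K, hK⟩ : ∃ K, K = (L - 1) * E / (E + 2) := ⟨_, rfl⟩
    have hK1 : K1 ≤ K := by
      rw [hK, Nat.le_div_iff_mul_le (by omega)]
      have e1 : (E + 2) * (K1 + 1) ≤ L - 1 := by omega
      calc K1 * (E + 2) ≤ (E + 2) * (K1 + 1) := by nlinarith
        _ ≤ L - 1 := e1
        _ ≤ (L - 1) * E := Nat.le_mul_of_pos_right _ (by omega)
    have hK2 : (E + 2) * K ≤ (L - 1) * E := by rw [hK]; exact Nat.mul_div_le _ _
    have hK3 : (L - 1) * E < (E + 2) * (K + 1) := by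
      rw [hK]
      have e1 := Nat.div_add_mod ((L - 1) * E) (E + 2)
      have e2 := Nat.mod_lt ((L - 1) * E) (show 0 < E + 2 by omega)
      rw [Nat.mul_add, Nat.mul_one]
      omega
    obtain ⟨k, hk1, hk2, hk3⟩ := hA2 K hK1
    have hkL : k ≤ L - 1 := by
      have : E * k ≤ E * (L - 1) := by
        calc E * k ≤ (E + 2) * K := hk2
          _ ≤ (L - 1) * E := hK2
          _ = E * (L - 1) := by ring
      exact Nat.le_of_mul_le_mul_left this (by omega)
    have h1 := count_of_covers (covers_iff.2 hk3)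
    have h2 : count A (2 ^ (k + 1)) ≤ count A N :=
      count_mono A (le_trans (Nat.pow_le_pow_right (by norm_num) (by omega)) hLN)
    have h3 : 2 ^ K ≤ (count A N + 1) ^ 2 :=
      (Nat.pow_le_pow_right (by norm_num) hk1).trans (h1.trans (Nat.pow_le_pow_left (by omega) 2))
    have h4 : (2 : ℝ) ^ (K : ℝ) ≤ ((count A N : ℝ) + 1) ^ 2 := by
      rw [Real.rpow_natCast]
      exact_mod_cast h3
    have h5 : (2 : ℝ) ^ ((K : ℝ) / 2) ≤ count A N + 1 := by
      have e1 : (2 : ℝ) ^ ((K : ℝ) / 2) = Real.sqrt (2 ^ (K : ℝ)) := by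
        rw [Real.sqrt_eq_rpow, ← Real.rpow_mul (by norm_num)]
        congr 1
        ring
      rw [e1, Real.sqrt_le_left (by positivity)]
      exact h4
    -- the exponents
    have hLr : (8 : ℝ) / ε ≤ L := by
      have e1 : (⌈8 / ε⌉₊ : ℝ) ≤ L := by
        have : ⌈8 / ε⌉₊ ≤ L := by
          have := Nat.zero_le ((E + 2) * (K1 + 1))
          omega
        exact_mod_cast this
      exact (Nat.le_ceil _).trans e1
    have hLε : 8 ≤ ε * L := by
      rw [div_le_iff₀ hε] at hLr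
      linarith
    have hL1 : 1 ≤ L := by omega
    have hKr : (L : ℝ) - 1 - (L - 1) * (2 / E) - 1 ≤ K := by
      have e1 : (((L - 1) * E : ℕ) : ℝ) < (((E + 2) * (K + 1) : ℕ) : ℝ) := by exact_mod_cast hK3
      rw [Nat.cast_mul, Nat.cast_sub hL1] at e1
      push_cast at e1
      have e2 : (L : ℝ) - 1 - (L - 1) * (2 / E) ≤ (K + 1 : ℝ) := by
        have e3 : ((L : ℝ) - 1) * (E / (E + 2)) ≤ K + 1 := by
          rw [mul_div_assoc', div_le_iff₀ (by positivity)]
          linarith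
        have e4 : (1 : ℝ) - 2 / E ≤ E / (E + 2) := by
          rw [le_div_iff₀ (by positivity)]
          have : (1 - 2 / (E : ℝ)) * (E + 2) = E - 4 / E := by
            field_simp
            ring
          rw [this]
          have : 0 < 4 / (E : ℝ) := by positivity
          linarith
        have e5 : (0 : ℝ) ≤ (L : ℝ) - 1 := by
          have : (1 : ℝ) ≤ L := by exact_mod_cast hL1
          linarith
        calc (L : ℝ) - 1 - (L - 1) * (2 / E) = (L - 1) * (1 - 2 / E) := by ring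
          _ ≤ (L - 1) * (E / (E + 2)) := mul_le_mul_of_nonneg_left e4 e5
          _ ≤ K + 1 := e3
      linarith
    have hEr : 2 / (E : ℝ) ≤ ε / 2 := by
      rw [div_le_iff₀ hE0]
      nlinarith
    have hKr2 : ((L : ℝ) + 1) * (1 / 2 - ε) + 1 ≤ (K : ℝ) / 2 := by
      have e5 : (1 : ℝ) ≤ L := by exact_mod_cast hL1
      have e6 : ((L : ℝ) - 1) * (2 / E) ≤ L * (ε / 2) :=
        mul_le_mul (by linarith) hEr (by positivity) (by linarith)
      nlinarith
    rcases le_total 0 (1 / 2 - ε) with hs | hs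
    · have e1 : (N : ℝ) ≤ 2 ^ ((L : ℝ) + 1) := by
        have : (N : ℝ) ≤ 2 ^ (L + 1) := by exact_mod_cast hNL.le
        have e2 : (2 : ℝ) ^ ((L : ℝ) + 1) = 2 ^ (L + 1) := by
          rw [← Real.rpow_natCast]
          push_cast
          rfl
        rw [e2]
        exact this
      have e3 : (N : ℝ) ^ (1 / 2 - ε) ≤ (2 ^ ((L : ℝ) + 1)) ^ (1 / 2 - ε) :=
        Real.rpow_le_rpow (Nat.cast_nonneg _) e1 hs
      rw [← Real.rpow_mul (by norm_num)] at e3
      have e4 : (1 : ℝ) ≤ 2 ^ (((L : ℝ) + 1) * (1 / 2 - ε)) :=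
        Real.one_le_rpow (by norm_num) (mul_nonneg (by positivity) hs)
      have h7 : (2 : ℝ) ^ (((L : ℝ) + 1) * (1 / 2 - ε)) * 2 ≤ 2 ^ ((K : ℝ) / 2) := by
        calc (2 : ℝ) ^ (((L : ℝ) + 1) * (1 / 2 - ε)) * 2 =
              2 ^ (((L : ℝ) + 1) * (1 / 2 - ε) + 1) := by
              rw [Real.rpow_add (by norm_num), Real.rpow_one]
          _ ≤ 2 ^ ((K : ℝ) / 2) := Real.rpow_le_rpow_of_exponent_le (by norm_num) hKr2
      linarith
    · have e1 : (N : ℝ) ^ (1 / 2 - ε) ≤ 1 :=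
        Real.rpow_le_one_of_one_le_of_nonpos (by exact_mod_cast hN1) hs
      have e2 : E ≤ K := by
        have f1 : E + 2 ≤ L - 1 := by
          have : (E + 2) * 1 ≤ (E + 2) * (K1 + 1) := Nat.mul_le_mul_left _ (by omega)
          omega
        have f2 : (E + 2) * E < (E + 2) * (K + 1) :=
          lt_of_le_of_lt (Nat.mul_le_mul_right _ f1) hK3
        have := Nat.lt_of_mul_lt_mul_left f2
        omega
      have e3 : (1 : ℝ) ≤ (K : ℝ) / 2 := by
        have : (2 : ℝ) ≤ K := by exact_mod_cast (by omega : 2 ≤ K)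
        linarith
      have e4 : (2 : ℝ) ^ (1 : ℝ) ≤ 2 ^ ((K : ℝ) / 2) :=
        Real.rpow_le_rpow_of_exponent_le (by norm_num) e3
      rw [Real.rpow_one] at e4
      linarith
  · refine ⟨1 / (2 ^ (d + 1) * (c + 1)), by positivity, ?_⟩
    filter_upwards [eventually_ge_atTop K2, eventually_ge_atTop 2] with K hK hK'
    have h1 := hA3 K hK
    have h2 : ((Finset.range K).filter (fun k => 4 ≤ k ∧
        ¬ Pool.Agent.Helper667_AS.Bad A k)).card ≤ full A K := by
      unfold full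
      rw [← Set.ncard_coe_finset]
      refine Set.ncard_le_ncard ?_ ((Set.finite_Iio K).subset (fun k hk => hk.1))
      intro k hk
      rw [Finset.mem_coe, Finset.mem_filter, Finset.mem_range] at hk
      have h3 := covers_iff.2 hk.2.2
      exact ⟨hk.1, h3, sqrt_of_covers hk.2.1 h3⟩
    have h3 : (Nat.log 2 K) ^ (d + 1) ≤ c * full A K := h1.trans (Nat.mul_le_mul_left _ h2)
    have h4 : Real.log K ≤ 2 * (Nat.log 2 K : ℕ) := by
      have e1 := Pool.Agent.Helper667_AS.log_le (n := K) (by omega)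
      have e2 : 1 ≤ Nat.log 2 K := (Nat.le_log_iff_pow_le (by norm_num) (by omega)).2 (by omega)
      have e3 : ((Nat.log 2 K + 1 : ℕ) : ℝ) ≤ 2 * (Nat.log 2 K : ℕ) := by
        exact_mod_cast (by omega : Nat.log 2 K + 1 ≤ 2 * Nat.log 2 K)
      linarith
    have h5 : 0 ≤ Real.log K := Real.log_nonneg (by exact_mod_cast (by omega : 1 ≤ K))
    have h6 : Real.log K ^ (d + 1) ≤ 2 ^ (d + 1) * (c * full A K) := by
      calc Real.log K ^ (d + 1) ≤ (2 * (Nat.log 2 K : ℕ)) ^ (d + 1) := pow_le_pow_left₀ h5 h4 _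
        _ = 2 ^ (d + 1) * ((Nat.log 2 K : ℕ) : ℝ) ^ (d + 1) := mul_pow _ _ _
        _ ≤ 2 ^ (d + 1) * (c * full A K) := by
            refine mul_le_mul_of_nonneg_left ?_ (by positivity)
            exact_mod_cast h3
    rw [div_mul_eq_mul_div, one_mul, div_le_iff₀ (by positivity)]
    have h7 : (0 : ℝ) ≤ 2 ^ (d + 1) * full A K := by positivity
    nlinarith

end Pool.Agent.Results.MP_491344_nt.ManyFullScales
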